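import Pool.Agent.R869.SSix
import Pool.Agent.R869.WHyp2
import Pool.Agent.R869.WSm
import Pool.Agent.R869.WEx2
import Pool.Agent.R869.WDelC
import Pool.Agent.R869.UCor2
import Pool.Agent.R869.XPic
import Pool.Agent.R869.XComp

/-!
MP_64ff02_ag, Q1: the four properties of the generalised Green-Griffiths-Lang conjecture for the
complements `V ∖ {H_1 ⋯ H_q = 0}` of arbitrary hypersurfaces in arbitrary irreducible components `V`
of projective varieties, where the equations of the variety and of the boundary are any linear
combinations of the powers `x_j ^ d` and of `s` further monomials of degree `d`, in given sets of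
variables, for almost all choices of these monomials; necessary and sufficient combinatorial criteria
for the existence of entire curves with given vanishing coordinates, in the complements of
hypersurfaces in projective space and in hypersurfaces (with arbitrary coefficients), and for the
extension of all holomorphic maps from the punctured disc and log general type of all closed
subvarieties; varieties of all dimensions which have the four properties with the empty exceptional
set.

`LgtX d H w y`, `PicardX H y`, `BrodyX H y`, `StronglyX d H y` (`Pool/Agent/R869/XFourDefs.lean`): the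
properties (i), (ii), (iii), (iv) of `V ∖ {H = 0}`, where `V` is the projective variety with generic
point `y`, of dimension `w`, and the `H l` are forms of degree `d`; `ActsX H y b`: the one-parameter
group `t ↦ diag (t ^ b 0, …, t ^ b n)` acts on `V ∖ {H = 0}`. `CurveX F H f`, `OrbitX F H b x`
(`XBdDefs.lean`): entire curves, and orbits of one-parameter groups, in `{F = 0, H ≠ 0}`.
`LooseOff H J` (`XLooseDefs.lean`): `H` has a monomial in the variables from `J`, and there is a
colouring of the variables with `V ≥ 2` colours on `J` such that `N + D + 3 ≤ 2 V`, where `N` is the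
number of the monomials of `H` in the variables from `J` whose variables have different colours, and
`D` is the number of the colours on `J` for which exactly one monomial of `H` in the variables from
`J` has all its variables of this colour. `Loose F J` (`USharpDefs.lean`): `F` does not have exactly
one monomial in the variables from `J`, and there is a colouring as before with `N + D + 4 ≤ 2 V`.
`TuplesIn I d`, `AlmostAllIn I P`, `Spread I m J` (`SDefs.lean`): the tuples of exponent vectors of
degree `d`, the `i`-th one of a monomial in the variables from `I i`; the proportion of the tuples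
with the property `P` tends to `1` for `d → ∞`; for all colourings of the variables which are not
constant on `J`, `∑ min (m + 1) (a v + b v) ≤ m (N + 2) + 1`, the sum over the colours `v` on `J`,
where `a v` and `b v` are the numbers of the variables from `J` and of the sets `I i ⊆ J` with the
colour `v`, and `N` is the number of the sets `I i ⊆ J` with different colours.
`withPowers` (`WDensDefs.lean`): the set of the exponent vectors `a i` and of those of the `x_j ^ d`.
`GenCoeffs F T` (`WGen.lean`): the coefficient vectors of the `m` forms `F e` at any `m` elements of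
`T` are linearly independent (all coefficients are nonzero, if `m = 1`). `Wide U F N` (`WDefs.lean`):
whenever at most `n` pairs of exponent vectors of the forms, in the variables of a set `I`, are such
that the sum of the segments between them has positive width in all directions, this sum has width at
least `N` in all directions that are minimal on `U`. From the starting repository: `SubVar`,
`IsComponent`, `SubVarU`, `OffU`, `LogGeneralType` (`Pool/Agent/W602/GT`): the function fields and
generic points of the closed subvarieties of `{F = 0}`, those which are irreducible components, the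
closed subvarieties of `{F = 0, x_j ≠ 0 for j in U}`, the places over the boundary; `OffQ`
(`Pool/Agent/W603/GR/Main.lean`): the places with centre on the hypersurface; `PCurve`, `Extends`
(`Pool/Agent/W603/BP`): holomorphic maps from the punctured disc which extend to the disc;
`EntireCurve`, `Pts` (`Pool/Agent/H159R3`): the entire curves, the points of `X`.
-/

set_option autoImplicit false

namespace Pool.Agent.Results.MP_64ff02_ag.AlmostAllMonomials

open MvPolynomial Metric Pool.Agent.W602.GT Pool.Agent.H159R3.GGLLog Pool.Agent.W603.BP
  Pool.Agent.R869.Wd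

/-- For the irreducible components `V` of positive dimension of the projective variety `{F = 0}`
which are not contained in one of the hypersurfaces `H l = 0`, the following properties of
`X = V ∖ {H = 0}` are equivalent: `X` is of log general type; `X` is pseudo-Picard hyperbolic; `X` is
pseudo-Brody hyperbolic; `X` is strongly of log general type; all diagonal one-parameter groups which
act on `X` act trivially. -/
def FourProperties {n m q : ℕ} (d : ℕ) (F : Fin m → MvPolynomial (Fin (n + 1)) ℂ)
    (H : Fin q → MvPolynomial (Fin (n + 1)) ℂ) : Prop :=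
  ∀ (K : Type) [Field K] [Algebra ℂ K] (w : ℕ) (y : Fin (n + 1) → K), 1 ≤ w →
    SubVar F K w y → IsComponent F y → (∀ l, val y (H l) ≠ 0) →
    [LgtX d H w y, PicardX H y, BrodyX H y, StronglyX d H y,
      ∀ b : Fin (n + 1) → ℤ, ActsX H y b → ∀ i i', y i ≠ 0 → y i' ≠ 0 → b i = b i'].TFAE

/-- For the complement of the hypersurface `G = 0` of degree `d` in projective space and the set `J` of
variables, the following are equivalent: `J` is loose off `G`; there is an entire curve in the
complement on which exactly the coordinates outside `J` vanish identically; there is such an orbit of a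
diagonal one-parameter group; there is such a holomorphic map from the punctured disc to the complement
which does not extend to the disc; there is a closed subvariety of the complement of positive
dimension which is not of log general type and on which exactly the coordinates outside `J` vanish
identically. -/
def ComplementCriterion {n : ℕ} (d : ℕ) (G : MvPolynomial (Fin (n + 1)) ℂ)
    (J : Finset (Fin (n + 1))) : Prop :=
  [LooseOff G J,
    ∃ f, CurveX (fun e : Fin 0 => Fin.elim0 e) (fun _ : Fin 1 => G) f ∧
      ∀ j, (∃ z, f z j ≠ 0) ↔ j ∈ J,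
    ∃ (x : Fin (n + 1) → ℂ) (b : Fin (n + 1) → ℤ), (∀ j, x j ≠ 0 ↔ j ∈ J) ∧
      (∃ j ∈ J, ∃ j' ∈ J, b j ≠ b j') ∧
      OrbitX (fun e : Fin 0 => Fin.elim0 e) (fun _ : Fin 1 => G) b x,
    ∃ f : ℂ → Fin (n + 1) → ℂ, DifferentiableOn ℂ f (ball 0 1 \ {0}) ∧
      (∀ z ∈ ball (0 : ℂ) 1 \ {0}, f z ≠ 0 ∧ eval (f z) G ≠ 0) ∧ ¬ Extends f ∧
      ∀ j, (∃ z ∈ ball (0 : ℂ) 1 \ {0}, f z j ≠ 0) ↔ j ∈ J,
    ∃ (K : Type) (_ : Field K) (_ : Algebra ℂ K) (w : ℕ) (y : Fin (n + 1) → K), 1 ≤ w ∧
      SubVar (fun e : Fin 0 => (Fin.elim0 e : MvPolynomial (Fin (n + 1)) ℂ)) K w y ∧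
      val y G ≠ 0 ∧ (∀ j, y j ≠ 0 ↔ j ∈ J) ∧ ¬ LgtX d (fun _ : Fin 1 => G) w y].TFAE

/-- All the holomorphic maps from the punctured disc to `X = {F = 0, x_j ≠ 0 for j in U}` on which
exactly the coordinates outside `J` vanish identically extend to the disc, there are no entire curves
in `X` with this property, and all the closed subvarieties of `X` of positive dimension with this
property are of log general type. -/
def Regular {n : ℕ} {ι : Type} (U : Set (Fin (n + 1))) (F : ι → MvPolynomial (Fin (n + 1)) ℂ)
    (J : Finset (Fin (n + 1))) : Prop :=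
  (∀ f, PCurve U F f → (∀ j, (∃ z ∈ ball (0 : ℂ) 1 \ {0}, f z j ≠ 0) ↔ j ∈ J) → Extends f) ∧
  (∀ f, EntireCurve U F f → ¬ ∀ j, (∃ z, f z j ≠ 0) ↔ j ∈ J) ∧
  ∀ (K : Type) [Field K] [Algebra ℂ K] (w : ℕ) (y : Fin (n + 1) → K), 1 ≤ w →
    SubVarU U F K w y → (∀ j, y j ≠ 0 ↔ j ∈ J) → LogGeneralType ℂ K w (OffU U y)

/-- For the hypersurface `X = {F = 0, x_j ≠ 0 for j in U}` and the set `J` of variables, which contains
`U`, the following are equivalent: `J` is loose for `F`; there is an entire curve in `X` on which
exactly the coordinates outside `J` vanish identically; there is such a holomorphic map from the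
punctured disc to `X` which does not extend to the disc; there is a closed subvariety of `X` of
positive dimension which is not of log general type and on which exactly the coordinates outside `J`
vanish identically. -/
def LooseCriterion {n : ℕ} (U : Set (Fin (n + 1))) (F : MvPolynomial (Fin (n + 1)) ℂ)
    (J : Finset (Fin (n + 1))) : Prop :=
  [Loose F J,
    ∃ f, EntireCurve U (fun _ : Fin 1 => F) f ∧ ∀ j, (∃ z, f z j ≠ 0) ↔ j ∈ J,
    ∃ f, PCurve U (fun _ : Fin 1 => F) f ∧ ¬ Extends f ∧
      ∀ j, (∃ z ∈ ball (0 : ℂ) 1 \ {0}, f z j ≠ 0) ↔ j ∈ J,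
    ∃ (K : Type) (_ : Field K) (_ : Algebra ℂ K) (w : ℕ) (y : Fin (n + 1) → K), 1 ≤ w ∧
      SubVarU U (fun _ : Fin 1 => F) K w y ∧ (∀ j, y j ≠ 0 ↔ j ∈ J) ∧
      ¬ LogGeneralType ℂ K w (OffU U y)].TFAE

/-- For the irreducible components `V` of positive dimension of `X = {F = 0, x_j ≠ 0 for j in U}`, the
following are equivalent: `V` is of log general type; `V` is pseudo-Picard hyperbolic; `V` is
pseudo-Brody hyperbolic; `V` is strongly of log general type; all diagonal one-parameter groups which
act on `V` act trivially. -/
def FourPropertiesU {n : ℕ} {ι : Type} (U : Set (Fin (n + 1)))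
    (F : ι → MvPolynomial (Fin (n + 1)) ℂ) : Prop :=
  ∀ (K : Type) [Field K] [Algebra ℂ K] (w : ℕ) (y : Fin (n + 1) → K), 1 ≤ w →
    SubVarU U F K w y → IsComponentU U F y →
    [LogGeneralType ℂ K w (OffU U y), PicardV U y, BrodyV U y, StronglyLgt U ℂ y,
      ∀ b : Fin (n + 1) → ℤ, Acts U ℂ y b → ∀ i i', y i ≠ 0 → y i' ≠ 0 → b i = b i'].TFAE

/-- The assumptions of `wide_systems` hold for forms with exponents divisible by large numbers. -/
theorem divisible {n : ℕ} {ι : Type} {U : Set (Fin (n + 1))}
    {F : ι → MvPolynomial (Fin (n + 1)) ℂ} {s N : ℕ} (hF : ∀ e, IsPowSparse U s N (F e)) :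
    (∀ e, IsForm (F e)) ∧ (∀ e, (F e).support.card ≤ s) ∧ Wide U F N :=
  ⟨fun e => (hF e).1, fun e => (hF e).2.1, wide_of_powSparse hF⟩

/-- Let `I 1, …, I s` be nonempty sets of variables. For almost all tuples of monomials of degree `d`
in `n + 1` variables, the `i`-th one in the variables from `I i`, the following holds.

(1) Let `q` be a natural number. For almost all tuples, `FourProperties d F H` for all `m` and all
linear combinations `F 1, …, F m`, `H 1, …, H q` of these monomials and of the `x_j ^ d`.

(2) For almost all tuples, `ComplementCriterion d G J` for all such linear combinations `G` and all sets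
`J` of variables.

(3) For almost all tuples and all `U`, `LooseCriterion U G J` for all such linear combinations `G` and
all sets `J` of variables which contain `U`; if any `m` of the coefficient vectors of `m` such linear
combinations `F e` are linearly independent, and the `I i` are well spread on `J` with respect to `m`,
then `Regular U F J`. The `I i` are well spread, with respect to `m`, on all sets of variables if all
sets of `2 m + 2` variables are among the `I i`, `m ≥ 1`, and all `I i` have at least `m + 1`
elements. -/
theorem result :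
    (∀ (n s q : ℕ) (I : Fin s → Finset (Fin (n + 1))), (∀ i, (I i).Nonempty) →
      AlmostAllIn I fun d a => ∀ (m : ℕ) (F : Fin m → MvPolynomial (Fin (n + 1)) ℂ)
        (H : Fin q → MvPolynomial (Fin (n + 1)) ℂ), (∀ e, (F e).support ⊆ withPowers d a) →
        (∀ l, (H l).support ⊆ withPowers d a) → FourProperties d F H) ∧
    (∀ (n s : ℕ) (I : Fin s → Finset (Fin (n + 1))), (∀ i, (I i).Nonempty) →
      AlmostAllIn I fun d a => ∀ (G : MvPolynomial (Fin (n + 1)) ℂ) (J : Finset (Fin (n + 1))),
        G.support ⊆ withPowers d a → ComplementCriterion d G J) ∧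
    (∀ (n s : ℕ) (I : Fin s → Finset (Fin (n + 1))), (∀ i, (I i).Nonempty) →
      AlmostAllIn I fun d a => ∀ U : Set (Fin (n + 1)),
        (∀ (G : MvPolynomial (Fin (n + 1)) ℂ) (J : Finset (Fin (n + 1))),
          G.support ⊆ withPowers d a → (∀ j ∈ U, j ∈ J) → LooseCriterion U G J) ∧
        ∀ (m : ℕ) (F : Fin m → MvPolynomial (Fin (n + 1)) ℂ) (J : Finset (Fin (n + 1))),
          (∀ e, (F e).support ⊆ withPowers d a) → GenCoeffs F (withPowers d a) →
          Spread I m J → Regular U F J) ∧
    ∀ (n m s : ℕ) (I : Fin s → Finset (Fin (n + 1))), 1 ≤ m → (∀ i, m + 1 ≤ (I i).card) →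
      (∀ A : Finset (Fin (n + 1)), A.card = 2 * m + 2 → ∃ i, I i = A) → ∀ J, Spread I m J := by
  classical
  refine ⟨?_, ?_, ?_, fun n m s I hm hI hall => spread_all hm hI hall⟩
  · intro n s q I hI
    refine (almost_lift (q := q) (almost_typI (liftI_nonempty hI) fun d a h => h)).mono
      fun d a ha h m F H hF hH K _ _ w y hw hy hcomp hHy => ?_
    exact five_pairs h.pos h.good (fun i => (ha i).2) hF hH hw hy hcomp hHy
  · intro n s I hI
    refine (almost_lift (q := 1) (almost_typI (liftI_nonempty hI) fun d a h => h)).mono
      fun d a _ h G J hG => complementAll h hG J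
  · intro n s I hI
    exact almost_typI hI fun d a hty U => ⟨fun F J hF hU => hty.critAll hF hU,
      fun m F J hFT hgc hJ => ⟨fun f hf hfJ => hty.extends hFT hgc hf hfJ hJ,
        fun f hf hfJ => hty.no_entire hFT hgc hfJ hJ hf,
        fun K _ _ w y hw hy hyJ => hty.lgt hFT hgc hw hy hyJ hJ⟩⟩

/-- **Wide systems.** Let the system of finitely many forms `F e` with at most `s` monomials be
`N`-wide relative to `U` with `N > n s (s - 1) (s - 2) / 2`. Then `FourPropertiesU U F` holds. -/
theorem wide_systems : ∀ (n : ℕ) (ι : Type) [Finite ι] (U : Set (Fin (n + 1)))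
      (F : ι → MvPolynomial (Fin (n + 1)) ℂ) (s N : ℕ), 1 ≤ s → (∀ e, IsForm (F e)) →
      (∀ e, (F e).support.card ≤ s) → Wide U F N → n * (s * ((s - 1) * (s - 2) / 2)) < N →
      FourPropertiesU U F := by
  intro n ι _ U F s N hs hF hc hW hN K _ _ w y hw hy hcomp
  have hC : Sys U F s N := ⟨hF, hs, hc, hW, by
    rw [tri_choose]
    refine lt_of_le_of_lt (le_of_eq ?_) hN
    ring⟩
  exact four_comp hC hw hy hcomp

/-- For all smooth hypersurfaces with at most `n + 1` monomials, these are dominated by different
variables, up to the degree `1`. -/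
theorem smooth {n : ℕ} {F : MvPolynomial (Fin (n + 1)) ℂ} {d : ℕ} (hn : 2 ≤ n) (hd3 : 3 ≤ d)
    (hd : F.IsHomogeneous d) (hsm : NonSing F) (hc : F.support.card ≤ n + 1) :
    Irreducible F ∧ F.support.card = n + 1 ∧ ∃ v, Dominates F 1 v :=
  ⟨irreducible_of_nonSing hn (by omega) hd hsm, (dominates_of_nonSing hd3 hd hsm hc).2,
    (dominates_of_nonSing hd3 hd hsm hc).1⟩

/-- **An explicit exceptional set.** Let `F` be an irreducible form with `n + 1` monomials dominated
by different variables up to the degree `δ`, `n ≥ 2`, `deg F > 2 δ + n ^ 2 (n ^ 2 - 1) / 2`. For all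
`U`, the hypersurface `excH F v = 0` does not contain the open part `x_j ≠ 0` (`j` in `U`) of the
hypersurface `F = 0`, and contains all its closed subvarieties of positive dimension which are not of
log general type and all the holomorphic maps from the punctured disc which do not extend. -/
theorem explicit_set : ∀ (n : ℕ) (U : Set (Fin (n + 1))) (F : MvPolynomial (Fin (n + 1)) ℂ)
      (d δ : ℕ) (v : (Fin (n + 1) →₀ ℕ) → Fin (n + 1)), 2 ≤ n → F.IsHomogeneous d →
      Irreducible F → F.support.card = n + 1 → Dominates F δ v →
      2 * δ + n * ((n + 1) * (n * (n - 1) / 2)) < d →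
      IsForm (excH F v) ∧ (∃ x ∈ Pts U (fun _ : Unit => F), eval x (excH F v) ≠ 0) ∧
      (∀ (K : Type) [Field K] [Algebra ℂ K] (w : ℕ) (y : Fin (n + 1) → K), 1 ≤ w →
        SubVarU U (fun _ : Unit => F) K w y → val y (excH F v) ≠ 0 →
        LogGeneralType ℂ K w (OffU U y)) ∧
      ∀ f, PCurve U (fun _ : Unit => F) f →
        (∃ z ∈ ball (0 : ℂ) 1 \ {0}, eval (f z) (excH F v) ≠ 0) → Extends f := by
  classical
  intro n U F d δ v hn hd hF hc hv hN
  have hd1 : 1 < d := by
    have h1 : 1 ≤ n * (n - 1) / 2 := by
      rw [Nat.le_div_iff_mul_le two_pos]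
      calc 1 * 2 = 2 * 1 := rfl
        _ ≤ n * (n - 1) := Nat.mul_le_mul hn (by omega)
    have h2 : 1 * (1 * 1) ≤ n * ((n + 1) * (n * (n - 1) / 2)) :=
      Nat.mul_le_mul (by omega) (Nat.mul_le_mul (by omega) h1)
    omega
  refine ⟨excH_form hd, ?_, fun K _ _ w y hw hy hne => lgt_of_excH hd hv hN hw hy hne,
    fun f hf hne => picard_hyp hd hv hN U f hf hne⟩
  obtain ⟨x, hx, hne⟩ := excH_ne hd hv hd1 hc hF
  refine ⟨x, ⟨hx.1, fun j _ h0 => hne ?_, fun _ => ?_⟩, ?_⟩
  · unfold excH val
    rw [map_mul, map_prod, Finset.prod_eq_zero (Finset.mem_univ j), zero_mul]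
    rw [aeval_X, h0]
  · rw [← val_eval]
    exact hx.2 ()
  · rw [← val_eval]
    exact hne

end Pool.Agent.Results.MP_64ff02_ag.AlmostAllMonomials
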