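import Pool.Agent.R871.SG.LineC

/-!
MP_64ff02_ag, Q1: pseudo-hyperbolicity of quasi-projective varieties for holomorphic discs of bounded
index.
-/

set_option autoImplicit false

namespace Pool.Agent.Results.MP_64ff02_ag.IndexMetric

open Pool.Agent.R871.SG MvPolynomial

/-- Let `X` be a closed subset of `ℙⁿ` (given by its cone), for instance a projective variety, let
`D = X ∩ {H = 0}` and `V = X ∖ D`, and let `d` be a natural number. Let `Z_d` be the union of `D` and of
the images of all nonconstant algebraic maps of degree at most `d` from the affine line to `V`.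
Consider holomorphic maps `f` from discs `|z| < r` to `V`, given by homogeneous coordinates without
common zeros with the power series `∑ a_m z^m`, of index at most `d`: there is a maximal term
`‖a_j‖ r^j` with `j ≤ d`.

(1) `Z_d` is closed.

(2) For every `ε > 0` there is `C` such that all such `f` with `f 0` not in the `ε`-neighbourhood of
`Z_d` satisfy `‖a_m‖ r^m ≤ C ‖a_0‖` for all `m`, and have at the centre of the disc a derivative of at
most `C / r`: one has `r |a_{0,s} a_{1,t} - a_{0,t} a_{1,s}| ≤ C ‖a_0‖²` for all coordinates `s`, `t`.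

(3) For every point `x` of `V`, there is such a bound for the derivatives at the centre of all such `f`
with `f 0` near `x` if and only if `x` is not in `Z_d`. -/
theorem result {n : ℕ} {X : Set (Fin (n + 1) → ℂ)} (hX : IsClosed X)
    (hs : ∀ (a : ℂ), ∀ x ∈ X, a • x ∈ X) {H : MvPolynomial (Fin (n + 1)) ℂ}
    (hH : ∃ e, H.IsHomogeneous e) (d : ℕ) :
    IsClosed ({x | x ∈ X ∧ eval x H = 0} ∪ lineSet {x | x ∈ X ∧ eval x H ≠ 0} d) ∧
    (∀ ε > 0, ∃ C : ℝ, ∀ (r : ℝ) (f : ℂ → Fin (n + 1) → ℂ) (a : ℕ → Fin (n + 1) → ℂ), 0 < r →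
      DiscIn X H r f a → IndexLE a d r →
      (∀ x ∈ {x | x ∈ X ∧ eval x H = 0} ∪ lineSet {x | x ∈ X ∧ eval x H ≠ 0} d,
        ε * ‖a 0‖ < ‖a 0 - x‖) → (∀ m, ‖a m‖ * r ^ m ≤ C * ‖a 0‖) ∧
        ∀ s t, r * ‖a 0 s * a 1 t - a 0 t * a 1 s‖ ≤ C * ‖a 0‖ ^ 2) ∧
    ∀ x ∈ X, x ≠ 0 → eval x H ≠ 0 →
      (IndexBoundNear X H d x ↔ x ∉ lineSet {x | x ∈ X ∧ eval x H ≠ 0} d) :=
  ⟨lineSet_closed hX hs hH d, fun _ hε => bound_off_lines hX hs hH d hε,
    fun _ _ hx0 hxH => indexBoundNear_iff hX hs hH d hx0 hxH⟩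

end Pool.Agent.Results.MP_64ff02_ag.IndexMetric
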