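import Pool.Agent.R871.SG.LogG

/-!
MP_64ff02_ag, Q1: holomorphic maps from annuli and from punctured discs to quasi-projective varieties
`V = X ∖ D`, and algebraic maps from the punctured line to `V` and to `D`.
-/

set_option autoImplicit false

namespace Pool.Agent.Results.MP_64ff02_ag.LaurentTerms

open Pool.Agent.R871.SG MvPolynomial

/-- Let `X` and `Z` be closed subsets of `ℙⁿ` (given by their cones), let `D = X ∩ {H = 0}` and
`V = X ∖ D`. Suppose that every nonconstant algebraic map from the punctured line to `ℙⁿ` with image in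
`V` or in `D`, given by polynomials of degree at most `d` without common zeros in the punctured line,
has its image in `Z`. Let `ε > 0`.

(1) There is `δ > 0` such that the following holds for every holomorphic map `F` from an annulus to
`V`, given by homogeneous coordinates without common zeros with the Laurent series `∑ a_m z^m`. If the
series has two `δ`-isolated terms, of index `j` on the circle of radius `r` and of index `k` on the
circle of radius `ρ`, with `r < ρ` and `j < k ≤ j + d`, then `F` maps both circles into the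
`ε`-neighbourhood of `Z`.

(2) There is `R > 1` such that the following holds for every holomorphic map `F` from a punctured disc
`0 < |z| < R₁` to `V` whose homogeneous coordinates have infinitely many nonzero Laurent coefficients
of negative index. Either the central index increases by more than `d` between the radii `r / R` and
`r`, for arbitrarily small `r`, or for every small `r` there is a circle of radius between `r / R` and
`r` which `F` maps into the `ε`-neighbourhood of `Z`. -/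
theorem result {n : ℕ} {X Z : Set (Fin (n + 1) → ℂ)} (hX : IsClosed X) (hZ : IsClosed Z)
    (hs : ∀ (a : ℂ), ∀ x ∈ X, a • x ∈ X) (hZs : ∀ (a : ℂ), ∀ x ∈ Z, a • x ∈ Z)
    {H : MvPolynomial (Fin (n + 1)) ℂ} (hH : ∃ e, H.IsHomogeneous e) {d : ℕ}
    (h : CurvesIn X Z H d) {ε : ℝ} (hε : 0 < ε) :
    (∃ δ : ℝ, 0 < δ ∧ ∀ (R₀ R₁ : ℝ) (F : ℂ → Fin (n + 1) → ℂ) (a : ℤ → Fin (n + 1) → ℂ),
      LaurentIn X H R₀ R₁ F a → ∀ (j k : ℤ) (r ρ : ℝ), j < k → k ≤ j + d → 0 < r → r < ρ →
        R₀ < r → ρ < R₁ → IsolatedZ a δ j r → IsolatedZ a δ k ρ →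
        ∀ z : ℂ, (‖z‖ = r ∨ ‖z‖ = ρ) → ∃ x ∈ Z, ‖F z - x‖ ≤ ε * ‖F z‖) ∧
    ∃ R : ℝ, 1 < R ∧ ∀ (R₁ : ℝ) (F : ℂ → Fin (n + 1) → ℂ) (a : ℤ → Fin (n + 1) → ℂ), 0 < R₁ →
      LaurentIn X H 0 R₁ F a → (∀ D : ℤ, ∃ m < D, a m ≠ 0) →
      (∀ r₀ > 0, ∃ r : ℝ, 0 < r ∧ r < r₀ ∧ centralIndexZ a (r / R) + d < centralIndexZ a r) ∨
      ∃ r₀ > 0, ∀ r : ℝ, 0 < r → r < r₀ → ∃ ρ : ℝ, r / R < ρ ∧ ρ < r ∧
        ∀ z : ℂ, ‖z‖ = ρ → ∃ x ∈ Z, ‖F z - x‖ ≤ ε * ‖F z‖ := by
  obtain ⟨δ, hδ0, hδ1, h1⟩ := log_circles hX hZ hs hZs hH (logFree_of_curvesIn hX hZ hs hZs hH h) hε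
  exact ⟨⟨δ, hδ0, h1⟩, log_central hδ0 hδ1 h1⟩

end Pool.Agent.Results.MP_64ff02_ag.LaurentTerms
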