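import Pool.Agent.R871.SG.LaurC
import Pool.Agent.TH182.VD.Main
import Pool.Agent.TH182.VI.Main

/-!
# Holomorphic curves of slow growth in very general pairs on an arbitrary projective variety

Let `X ⊂ ℙ^N` be a projective algebraic set of dimension at most `m`, and let `D_1, …, D_q` be very
general hypersurface sections of `X` of degrees `d_1, …, d_q`. Let `Z` be a set of indices with
`d_1 + … + d_q + #Z ≥ 2 m + 1`, and let `S` be the set of the points of `X` which lie on `D_i`
exactly for `i ∈ Z`; for `Z` empty, this is the complement of the divisor `D_1 + … + D_q`. There is a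
function `φ` with `φ r / log r → ∞` such that all holomorphic maps from the punctured plane to `S` of
growth at most `φ` are constant; in particular, all such entire curves are constant.
-/

set_option autoImplicit false

namespace Pool.Agent.Results.MP_64ff02_ag.SlowCurvesVeryGeneral

open Filter MvPolynomial Set
open Pool.Agent.R871.SG (Grows SlowL Pol2 ev2 HolMapL NonConstL pvL AlgInL limits_algL slow_iffL)
open Pool.Agent.TH143 (IsGmCurve On)

variable {N q : ℕ} {ι κ : Type}

/-- The point with homogeneous coordinates `x` lies on all `G i = 0` and on the hypersurfaces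
`F i = 0` with `i ∈ Z`, and on no hypersurface `F i = 0` with `i ∉ Z`. -/
def InStratum (G : κ → MvPolynomial (Fin (N + 1)) ℂ) (F : Fin q → MvPolynomial (Fin (N + 1)) ℂ)
    (Z : Finset (Fin q)) (x : Fin (N + 1) → ℂ) : Prop :=
  (∀ i, eval x (G i) = 0) ∧ (∀ i ∈ Z, eval x (F i) = 0) ∧ ∀ i, i ∉ Z → eval x (F i) ≠ 0

/-- The homogeneous coordinates `f` on the punctured plane have growth at most `φ`, relative to the
divisor `Q = 0`: for arbitrarily large `r`, both `log ‖f z‖` and `- log |Q (f z)|` are at most `φ r`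
on the annulus `1 / r ≤ |z| ≤ r`. -/
def SlowPair (φ : ℝ → ℝ) (Q : MvPolynomial (Fin (N + 1)) ℂ) (f : ℂ → Fin (N + 1) → ℂ) : Prop :=
  ∀ R : ℝ, ∃ r > R, ∀ z, r⁻¹ ≤ ‖z‖ → ‖z‖ ≤ r →
    Real.log ‖f z‖ ≤ φ r ∧ - Real.log ‖eval (f z) Q‖ ≤ φ r

/-- There is a function `φ` with `φ r / log r → ∞` for `r → ∞` such that every holomorphic map from
the punctured plane to the stratum of `Z`, given by holomorphic functions `f j` without common zeros
as homogeneous coordinates, is constant if it has growth at most `φ` relative to the boundary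
`∏ F i = 0`, `i ∉ Z`. -/
def SlowConstant (G : κ → MvPolynomial (Fin (N + 1)) ℂ) (F : Fin q → MvPolynomial (Fin (N + 1)) ℂ)
    (Z : Finset (Fin q)) : Prop :=
  ∃ φ : ℝ → ℝ, Grows φ ∧ ∀ f : ℂ → Fin (N + 1) → ℂ, DifferentiableOn ℂ f {0}ᶜ →
    (∀ z, z ≠ 0 → f z ≠ 0 ∧ InStratum G F Z (f z)) →
    SlowPair φ (∏ i ∈ Finset.univ \ Z, F i) f → ∀ z w, z ≠ 0 → w ≠ 0 → ∃ a : ℂ, f w = a • f z

/-- the stratum as a closed subset of the product with an affine space -/
noncomputable def eqs (F : ι → MvPolynomial (Fin (N + 1)) ℂ) (Q : MvPolynomial (Fin (N + 1)) ℂ)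
    (e : ℕ) : ι ⊕ Fin (N + 1) → Pol2 N (N + 1) :=
  Sum.elim (fun i => map C (F i)) fun j => X j ^ e - map C Q * C (X j)

theorem ev2_C (p : (Fin (N + 1) → ℂ) × (Fin (N + 1) → ℂ)) (F : MvPolynomial (Fin (N + 1)) ℂ) :
    ev2 p (map C F : Pol2 N (N + 1)) = eval p.1 F := by
  have h1 : (eval p.2).comp (C : ℂ →+* MvPolynomial (Fin (N + 1)) ℂ) = RingHom.id ℂ := by
    ext a
    simp
  rw [ev2, MvPolynomial.map_map, h1, MvPolynomial.map_id]

theorem ev2_eq (p : (Fin (N + 1) → ℂ) × (Fin (N + 1) → ℂ)) (Q : MvPolynomial (Fin (N + 1)) ℂ)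
    (e : ℕ) (j : Fin (N + 1)) :
    ev2 p (X j ^ e - map C Q * C (X j) : Pol2 N (N + 1)) = p.1 j ^ e - eval p.1 Q * p.2 j := by
  have h1 := ev2_C p Q
  simp only [ev2, map_sub, map_mul, map_pow, map_X, map_C, eval_X, eval_C] at h1 ⊢
  rw [h1]

theorem eqs_homog {F : ι → MvPolynomial (Fin (N + 1)) ℂ} (hF : ∀ i, ∃ d, (F i).IsHomogeneous d)
    {Q : MvPolynomial (Fin (N + 1)) ℂ} {e : ℕ} (hQ : Q.IsHomogeneous e) (i : ι ⊕ Fin (N + 1)) :
    ∃ d, (eqs F Q e i).IsHomogeneous d := by
  rcases i with i | j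
  · obtain ⟨d, hd⟩ := hF i
    exact ⟨d, hd.map _⟩
  · refine ⟨e, ?_⟩
    have h1 : (X j ^ e : Pol2 N (N + 1)).IsHomogeneous e := by
      have := (isHomogeneous_X (MvPolynomial (Fin (N + 1)) ℂ) j).pow e
      rwa [one_mul] at this
    have h2 : (map C Q * C (X j) : Pol2 N (N + 1)).IsHomogeneous e := by
      have := (hQ.map (C : ℂ →+* MvPolynomial (Fin (N + 1)) ℂ)).mul
        (isHomogeneous_C (Fin (N + 1)) (X j : MvPolynomial (Fin (N + 1)) ℂ))
      rwa [add_zero] at this
    exact h1.sub h2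

theorem diff_eval {f : ℂ → Fin (N + 1) → ℂ} {S : Set ℂ}
    (hf : ∀ j, DifferentiableOn ℂ (fun z => f z j) S) (Q : MvPolynomial (Fin (N + 1)) ℂ) :
    DifferentiableOn ℂ (fun z => eval (f z) Q) S := by
  induction Q using MvPolynomial.induction_on with
  | C a => simp only [eval_C]; fun_prop
  | add p r hp hr => simp only [map_add]; exact hp.add hr
  | mul_X p j hp => simp only [map_mul, eval_X]; exact hp.mul (hf j)

/-- Slow holomorphic maps from the punctured plane to the complement of `Q = 0` in `F = 0` are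
constant if there are no morphisms from the multiplicative group. -/
theorem slow_main (F : ι → MvPolynomial (Fin (N + 1)) ℂ) (hF : ∀ i, ∃ d, (F i).IsHomogeneous d)
    (Q : MvPolynomial (Fin (N + 1)) ℂ) {e : ℕ} (hQ : Q.IsHomogeneous e)
    (hno : ∀ P, ¬ IsGmCurve F Q P) :
    ∃ φ : ℝ → ℝ, Grows φ ∧ ∀ f : ℂ → Fin (N + 1) → ℂ, DifferentiableOn ℂ f {0}ᶜ →
      (∀ z, z ≠ 0 → f z ≠ 0 ∧ On F Q (f z)) → SlowPair φ Q f →
      ∀ z w, z ≠ 0 → w ≠ 0 → ∃ a : ℂ, f w = a • f z := by
  obtain ⟨φ, hφ, hlim⟩ := limits_algL (eqs F Q e) (eqs_homog hF hQ) (K := Set.univ)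
    isClosed_univ (fun _ _ _ => Set.mem_univ _)
  -- no algebraic maps
  have hR : AlgInL (eqs F Q e) Set.univ (fun _ : Unit => (1 : Pol2 N (N + 1))) := by
    rintro P R k ⟨hd, hne, hz⟩ hnc - u hu -
    exfalso
    have hX : ∀ z, z ≠ 0 → ∀ i, eval (fun j => (P j).eval z) (F i) = 0 := by
      intro z hz0 i
      have h1 := hz z hz0 (Sum.inl i)
      change ev2 _ (map C (F i)) = 0 at h1
      rwa [ev2_C] at h1
    have hy : ∀ z, z ≠ 0 → ∀ j, (P j).eval z ^ e =
        eval (fun j => (P j).eval z) Q * ((R j).eval z / z ^ k) := by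
      intro z hz0 j
      have h1 := hz z hz0 (Sum.inr j)
      change ev2 _ (X j ^ e - map C Q * C (X j)) = 0 at h1
      rw [ev2_eq] at h1
      exact sub_eq_zero.1 h1
    have hne' : ∀ z, z ≠ 0 → ∃ j, (P j).eval z ≠ 0 := by
      intro z hz0
      obtain ⟨j, hj⟩ := Function.ne_iff.mp (hne z hz0)
      exact ⟨j, hj⟩
    have hQ0 : ∀ z, z ≠ 0 → eval (fun j => (P j).eval z) Q ≠ 0 := by
      intro z hz0 h0
      obtain ⟨j, hj⟩ := hne' z hz0
      have h1 := hy z hz0 j
      rw [h0, zero_mul] at h1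
      exact pow_ne_zero e hj h1
    refine hno P ⟨hne', fun t ht => ⟨hX t ht, hQ0 t ht⟩, ?_⟩
    obtain ⟨z, w, hz0, hw0, hzw⟩ := hnc
    have hprop : ∀ a : ℂ, (pvL P R k w).1 ≠ a • (pvL P R k z).1 := by
      rcases hzw with h1 | h1
      · exact h1
      · intro a ha
        apply h1
        have ha0 : a ≠ 0 := by
          rintro rfl
          rw [zero_smul] at ha
          exact hne w hw0 ha
        have hPa : ∀ j, (P j).eval w = a * (P j).eval z := fun j => congrFun ha j
        have hQa : eval (fun j => (P j).eval w) Q = a ^ e * eval (fun j => (P j).eval z) Q := by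
          have : (fun j => (P j).eval w) = a • fun j => (P j).eval z := funext hPa
          rw [this]
          exact Pool.Agent.R871.SG.eval_smul_form hQ a _
        funext j
        change (R j).eval w / w ^ k = (R j).eval z / z ^ k
        have h2 := hy w hw0 j
        have h3 := hy z hz0 j
        rw [hQa, hPa, mul_pow, h3] at h2
        have h4 := hQ0 z hz0
        have h5 : a ^ e * eval (fun j => (P j).eval z) Q *
            ((R j).eval w / w ^ k - (R j).eval z / z ^ k) = 0 := by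
          linear_combination -h2
        exact sub_eq_zero.1 ((mul_eq_zero.1 h5).resolve_left
          (mul_ne_zero (pow_ne_zero e ha0) h4))
    obtain ⟨i, j, hij⟩ := Pool.Agent.R871.SG.minors (hne z hz0) hprop
    exact ⟨z, w, hz0, hw0, i, j, fun h4 => hij (by
      change (P i).eval z * (P j).eval w - (P j).eval z * (P i).eval w = 0
      linear_combination h4)⟩
  have hS := (slow_iffL hφ hlim (G := fun _ : Unit => (1 : Pol2 N (N + 1)))
    (fun _ => ⟨0, isHomogeneous_one _ _⟩)).1 hR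
  have hφ0 : ∀ᶠ r in atTop, 0 ≤ φ r := by
    have h1 : ∀ᶠ r in atTop, (0 : ℝ) ≤ φ r / Real.log r := hφ.eventually_ge_atTop 0
    filter_upwards [h1, eventually_gt_atTop 1] with r hr hr1
    have h2 := mul_nonneg hr (Real.log_pos hr1).le
    rwa [div_mul_cancel₀ _ (Real.log_pos hr1).ne'] at h2
  refine ⟨fun r => φ r / (e + 1), ?_, fun f hf hfX hs z w hz hw => ?_⟩
  · have h1 : (fun r => φ r / ((e : ℝ) + 1) / Real.log r) =
        fun r => (φ r / Real.log r) / ((e : ℝ) + 1) := by
      funext r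
      ring
    change Tendsto (fun r => φ r / ((e : ℝ) + 1) / Real.log r) atTop atTop
    rw [h1]
    exact Tendsto.atTop_div_const (by positivity) hφ
  by_contra hcon
  push Not at hcon
  let g : ℂ → (Fin (N + 1) → ℂ) × (Fin (N + 1) → ℂ) := fun z =>
    (f z, fun j => f z j ^ e / eval (f z) Q)
  have hfj : ∀ j, DifferentiableOn ℂ (fun z => f z j) {0}ᶜ := fun j =>
    differentiableOn_pi.1 hf j
  have hQd : DifferentiableOn ℂ (fun z => eval (f z) Q) {0}ᶜ := diff_eval hfj Q
  have hgd : DifferentiableOn ℂ g {0}ᶜ := by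
    refine hf.prodMk (differentiableOn_pi.2 fun j => ?_)
    exact ((hfj j).pow e).div hQd fun z hz => (hfX z hz).2.2
  have hg : HolMapL (eqs F Q e) g := by
    refine ⟨hgd, fun z hz => (hfX z hz).1, fun z hz i => ?_⟩
    rcases i with i | j
    · change ev2 _ (map C (F i)) = 0
      rw [ev2_C]
      exact (hfX z hz).2.1 i
    · change ev2 _ (X j ^ e - map C Q * C (X j)) = 0
      rw [ev2_eq]
      change f z j ^ e - eval (f z) Q * (f z j ^ e / eval (f z) Q) = 0
      rw [mul_div_cancel₀ _ (hfX z hz).2.2, sub_self]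
  have hgs : SlowL φ g := by
    intro R
    obtain ⟨R0, hR0⟩ := eventually_atTop.1 hφ0
    obtain ⟨r, hr, hrz⟩ := hs (max (max R R0) 1)
    have hr1 : R < r := lt_of_le_of_lt ((le_max_left _ _).trans (le_max_left _ _)) hr
    have hr2 : R0 < r := lt_of_le_of_lt ((le_max_right _ _).trans (le_max_left _ _)) hr
    have hr3 : 1 < r := lt_of_le_of_lt (le_max_right _ _) hr
    have hp := hR0 r hr2.le
    refine ⟨r, hr1, fun u hu1 hu2 => ?_⟩
    have hu0 : u ≠ 0 := by
      rintro rfl
      rw [norm_zero] at hu1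
      have : 0 < r⁻¹ := by positivity
      linarith
    obtain ⟨h1, h2⟩ := hrz u hu1 hu2
    have hQu : 0 < ‖eval (f u) Q‖ := norm_pos_iff.2 (hfX u hu0).2.2
    have hfu : 0 < ‖f u‖ := norm_pos_iff.2 (hfX u hu0).1
    have hle : φ r / (e + 1) ≤ φ r := div_le_self hp (by linarith [(Nat.cast_nonneg e : (0:ℝ) ≤ e)])
    have hb : ‖g u‖ ≤ max ‖f u‖ (‖f u‖ ^ e / ‖eval (f u) Q‖) := by
      refine (Prod.norm_def _).trans_le (max_le_max le_rfl ?_)
      refine (pi_norm_le_iff_of_nonneg (by positivity)).2 fun j => ?_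
      change ‖f u j ^ e / eval (f u) Q‖ ≤ _
      rw [norm_div, norm_pow]
      have := norm_le_pi_norm (f u) j
      gcongr
    have hg0 : 0 < ‖g u‖ := hfu.trans_le (norm_fst_le (g u))
    refine (Real.log_le_log hg0 hb).trans ?_
    rcases max_choice ‖f u‖ (‖f u‖ ^ e / ‖eval (f u) Q‖) with h3 | h3
    · rw [h3]
      exact h1.trans hle
    · rw [h3, Real.log_div (by positivity) hQu.ne', Real.log_pow]
      have h4 : (e : ℝ) * Real.log ‖f u‖ ≤ e * (φ r / (e + 1)) :=
        mul_le_mul_of_nonneg_left h1 (Nat.cast_nonneg e)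
      have h5 : (e : ℝ) * (φ r / (e + 1)) + φ r / (e + 1) = φ r := by
        field_simp
      linarith
  have h3 := hS g hg ⟨z, w, hz, hw, Or.inl fun a => hcon a⟩ hgs ⟨1, one_ne_zero, Set.mem_univ _⟩ 1
    one_ne_zero ()
  simp [ev2] at h3

theorem on_of_mem {G : κ → MvPolynomial (Fin (N + 1)) ℂ}
    {F : Fin q → MvPolynomial (Fin (N + 1)) ℂ} {Z : Finset (Fin q)} {x : Fin (N + 1) → ℂ}
    (h : InStratum G F Z x) : On (Sum.elim G (fun i : {i // i ∈ Z} => F i.1))
      (∏ i ∈ Finset.univ \ Z, F i) x := by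
  obtain ⟨h1, h2, h3⟩ := h
  refine ⟨?_, ?_⟩
  · rintro (i | i)
    · exact h1 i
    · exact h2 i.1 i.2
  · rw [map_prod, Finset.prod_ne_zero_iff]
    intro i hi
    exact h3 i (Finset.mem_sdiff.mp hi).2

/-- Let `X` be a closed subset of the projective space of dimension at most `m`, given by forms
`G i` (the ring of homogeneous coordinates has transcendence degree at most `m + 1`).

1. For given degrees `d i` there is a countable set of nonzero polynomials in the coefficients of
families of forms `F i` of degrees `d i` such that for all forms `F i` at which none of these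
polynomials vanishes, and for each set `Z` of indices with `∑ d i + #Z ≥ 2 m + 1`, all holomorphic
maps of slow growth from the punctured plane to the set of the points of `X` which lie on `F i = 0`
exactly for `i ∈ Z` are constant.

2. There is a countable subfield `k₁` of `ℂ`, depending only on `X`, such that this holds for all
degrees and all forms `F i` whose coefficients together are algebraically independent over `k₁`. -/
theorem result {m : ℕ} (G : κ → MvPolynomial (Fin (N + 1)) ℂ)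
    (hG : ∀ i, ∃ n, (G i).IsHomogeneous n)
    (hdim : Algebra.trdeg ℂ (MvPolynomial (Fin (N + 1)) ℂ ⧸ Ideal.span (Set.range G)) ≤ m + 1) :
    (∀ (q : ℕ) (d : Fin q → ℕ),
      ∃ Ps : Set (MvPolynomial ((i : Fin q) × {α : Fin (N + 1) →₀ ℕ // α.degree = d i}) ℂ),
        Ps.Countable ∧ 0 ∉ Ps ∧
        ∀ F : Fin q → MvPolynomial (Fin (N + 1)) ℂ, (∀ i, (F i).IsHomogeneous (d i)) →
          (∀ P ∈ Ps, eval (fun x => coeff x.2.1 (F x.1)) P ≠ 0) →
          ∀ Z : Finset (Fin q), 2 * m + 1 ≤ ∑ i, d i + Z.card → SlowConstant G F Z) ∧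
    ∃ k₁ : Subfield ℂ, Countable k₁ ∧ ∀ (q : ℕ) (d : Fin q → ℕ)
      (F : Fin q → MvPolynomial (Fin (N + 1)) ℂ), (∀ i, (F i).IsHomogeneous (d i)) →
      AlgebraicIndependent k₁
        (fun x : (i : Fin q) × {α : Fin (N + 1) →₀ ℕ // α.degree = d i} =>
          coeff x.2.1 (F x.1)) →
      ∀ Z : Finset (Fin q), 2 * m + 1 ≤ ∑ i, d i + Z.card → SlowConstant G F Z := by
  obtain ⟨k₁, hk₁, hmain⟩ := Pool.Agent.TH182.VD.main G hG hdim
  have key : ∀ (q : ℕ) (d : Fin q → ℕ)
      (F : Fin q → MvPolynomial (Fin (N + 1)) ℂ), (∀ i, (F i).IsHomogeneous (d i)) →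
      AlgebraicIndependent k₁
        (fun x : (i : Fin q) × {α : Fin (N + 1) →₀ ℕ // α.degree = d i} =>
          coeff x.2.1 (F x.1)) →
      ∀ Z : Finset (Fin q), 2 * m + 1 ≤ ∑ i, d i + Z.card → SlowConstant G F Z := by
    intro q d F hF hind Z hZ
    have hQh : (∏ i ∈ Finset.univ \ Z, F i).IsHomogeneous (∑ i ∈ Finset.univ \ Z, d i) :=
      IsHomogeneous.prod _ _ _ fun i _ => hF i
    have hFh : ∀ i, ∃ d', (Sum.elim G (fun i : {i // i ∈ Z} => F i.1) i).IsHomogeneous d' := by
      intro i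
      rcases i with i | i
      · exact hG i
      · exact ⟨d i.1, hF i.1⟩
    obtain ⟨φ, hφ, h⟩ := slow_main _ hFh _ hQh (hmain q d F hF hind Z hZ)
    exact ⟨φ, hφ, fun f hf hX hs => h f hf (fun z hz => ⟨(hX z hz).1, on_of_mem (hX z hz).2⟩) hs⟩
  refine ⟨fun q d => ?_, k₁, hk₁, key⟩
  obtain ⟨Ps, h1, h2, h3⟩ := Pool.Agent.TH182.VI.very_general (N := N) k₁ d
  exact ⟨Ps, h1, h2, fun F hF hP => key q d F hF (h3 F hP)⟩

end Pool.Agent.Results.MP_64ff02_ag.SlowCurvesVeryGeneral
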